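import Pool.Agent.Helper718.CWG.Core

/-!
# MP_e71ceb_lc: superatomic poset algebras are canonically well-generated

(Question of Abraham, Bonnet, Kubis and Rubin.)  We answer Q1 positively: `result`.

Outline of the proof.  The dual space of `F(P)` is the compact distributive lattice `L` of final
segments of `P`; it is scattered, with Cantor-Bendixson rank `r`, and `P` has no infinite
antichain.

1. (`IsRank.sm`) `r E # r F ≤ r (E ∪ F) # r (E ∩ F)`, where `#` is the natural sum of ordinals.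
   Hence (`IsRank.key`) `r (X ∪ Y) < r X` implies `r Y < r (X ∩ Y)`.
2. Call `E ⊂ D` a weak lower record of `D` if `r F < r E` whenever `E ⊂ F ⊂ D`.  Fix a well-ordering
   of `P`, and let `A_D` be the set of the first elements of the sets `D \ E`, for `E` a weak lower
   record of `D`; dually `B_D` for the upper records.  These sets are finite, `A_D ∩ G ⊆ A_G` for
   `G ⊆ D`, dually for `B`, and `D` is the unique point of maximal rank in the clopen set
   `U_D = {G : A_D ⊆ G, B_D ∩ G = ∅}`.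
3. Let `Â_G` be the union of the `A_D` with `D ⊆ G`, `G ∈ U_D`, and dually `B̂_G`.  They generate
   finitely generated segments, and the resulting clopen sets `Û_D` satisfy
   `G ∈ Û_D → Û_G ⊆ Û_D` (`exists_selector`).
4. The sets `Û_D` form a complete set of representatives with the required properties.
-/

open Set

universe u

namespace Pool.Agent.Results.MP_e71ceb_lc.SuperatomicImpliesCWG

open Pool.Agent.Helper718.CWG

/-! ## Definitions used in the statement -/

/-- `x : P → B` presents the Boolean algebra `B` as the poset algebra `F(P)`: `x` is order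
preserving, and every order preserving map from `P` into a Boolean algebra `A` extends uniquely
to a homomorphism `B → A`. -/
structure IsPosetAlgebra {P : Type u} [PartialOrder P] {B : Type u} [BooleanAlgebra B]
    (x : P → B) : Prop where
  mono : Monotone x
  lift : ∀ (A : Type u) [BooleanAlgebra A] (f : P → A), Monotone f →
    ∃! φ : BoundedLatticeHom B A, ∀ p, φ (x p) = f p

/-- `B` is superatomic: every homomorphic image (quotient) of `B` is atomic. -/
def Superatomic (B : Type u) [BooleanAlgebra B] : Prop :=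
  ∀ (C : Type u) [BooleanAlgebra C] (f : BoundedLatticeHom B C),
    Function.Surjective f → IsAtomic C

section Defs
variable {B : Type u} [BooleanAlgebra B]

/-- The class of `a` is an atom of the quotient `B / J` (for an ideal `J`). -/
def IsAtomMod (J : Set B) (a : B) : Prop := a ∉ J ∧ ∀ c, a ⊓ c ∈ J ∨ a \ c ∈ J

/-- The set of `b` whose class in `B / J` lies in the ideal generated by the atoms of `B / J`,
i.e. whose class is below a finite join of atoms of `B / J`. -/
def cbNext (J : Set B) : Set B := {b | ∃ S : Finset B, (∀ a ∈ S, IsAtomMod J a) ∧ b \ S.sup id ∈ J}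

variable (B) in
/-- The Cantor-Bendixson ideals: `I_0 = {0}`, `I_{α+1}` is the set of `b` whose class in `B / I_α`
lies in the ideal generated by the atoms of `B / I_α`, and `I_δ = ⋃_{α < δ} I_α` for limit `δ`. -/
noncomputable def CBIdeal (α : Ordinal.{u}) : Set B :=
  Ordinal.limitRecOn α {⊥} (fun _ J => cbNext J) (fun o _ ih => {b | ∃ β, ∃ h : β < o, b ∈ ih β h})

/-- The rank `rk^B(b)`: the (least) `α` with `b ∈ I_{α+1}`. -/
noncomputable def rk (b : B) : Ordinal.{u} := sInf {α | b ∈ CBIdeal B (α + 1)}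

variable (B) in
/-- `At^_α(B)`: the elements whose class is an atom of `B / I_α`. -/
def GenAtoms (α : Ordinal.{u}) : Set B := {a | IsAtomMod (CBIdeal B α) a}

/-- `H = ⋃_{α ≤ rk(B)} H_α` is a complete set of representatives of generalized atoms:
`H_α ⊆ At^_α(B)`, and for each `a ∈ At^_α(B)` there is exactly one `h ∈ H_α` such that the rank of
the symmetric difference of `a` and `h` is `< α`, i.e. such that this symmetric difference lies
in `I_α` (see `rk_lt_iff`; the zero element counts as having rank `< 0`). -/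
def IsCompleteSetOfReps (H : Ordinal.{u} → Set B) : Prop :=
  ∀ α ≤ rk (⊤ : B), H α ⊆ GenAtoms B α ∧
    ∀ a ∈ GenAtoms B α, ∃! h, h ∈ H α ∧ symmDiff a h ∈ CBIdeal B α

variable (B) in
/-- `B` is canonically well-generated: there is a complete set of representatives of generalized
atoms which generates `B` as a Boolean algebra, and such that the sublattice of `B` generated by it
has no infinite strictly decreasing sequence. -/
def CanonicallyWellGenerated : Prop :=
  ∃ H : Ordinal.{u} → Set B, IsCompleteSetOfReps H ∧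
    BooleanSubalgebra.closure (⋃ α ∈ Set.Iic (rk (⊤ : B)), H α) = ⊤ ∧
    ∀ f : ℕ → B, (∀ n, f n ∈ latticeClosure (⋃ α ∈ Set.Iic (rk (⊤ : B)), H α)) → ¬ StrictAnti f

end Defs

/-! ## Elementary properties of the Cantor-Bendixson ideals -/

section Ideals
variable {B : Type u} [BooleanAlgebra B]

theorem CBIdeal_zero : CBIdeal B 0 = {⊥} := by
  unfold CBIdeal; rw [Ordinal.limitRecOn_zero]

theorem CBIdeal_succ (α : Ordinal.{u}) : CBIdeal B (α + 1) = cbNext (CBIdeal B α) := by
  unfold CBIdeal; rw [Ordinal.limitRecOn_add_one]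

theorem CBIdeal_limit {o : Ordinal.{u}} (ho : Order.IsSuccLimit o) :
    CBIdeal B o = {b | ∃ β, ∃ _ : β < o, b ∈ CBIdeal B β} := by
  unfold CBIdeal; rw [Ordinal.limitRecOn_limit _ _ _ _ ho]

/-- Being an ideal. -/
structure IsId (J : Set B) : Prop where
  bot : ⊥ ∈ J
  sup : ∀ a ∈ J, ∀ b ∈ J, a ⊔ b ∈ J
  low : ∀ a ∈ J, ∀ b, b ≤ a → b ∈ J

theorem subset_cbNext {J : Set B} (_hJ : IsId J) : J ⊆ cbNext J := by
  intro b hb
  refine ⟨∅, by simp, ?_⟩
  simpa using hb

theorem IsId.cbNext {J : Set B} (hJ : IsId J) : IsId (cbNext J) := by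
  classical
  constructor
  · exact subset_cbNext hJ hJ.bot
  · rintro a ⟨S, hS, ha⟩ b ⟨T, hT, hb⟩
    refine ⟨S ∪ T, ?_, ?_⟩
    · intro c hc
      rcases Finset.mem_union.1 hc with h | h
      · exact hS c h
      · exact hT c h
    · refine hJ.low _ (hJ.sup _ ha _ hb) _ ?_
      rw [Finset.sup_union, sup_sdiff]
      exact sup_le_sup (sdiff_le_sdiff_left le_sup_left) (sdiff_le_sdiff_left le_sup_right)
  · rintro a ⟨S, hS, ha⟩ b hb
    exact ⟨S, hS, hJ.low _ ha _ (sdiff_le_sdiff_right hb)⟩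

theorem CBIdeal_isId_mono (α : Ordinal.{u}) :
    IsId (CBIdeal B α) ∧ ∀ β < α, CBIdeal B β ⊆ CBIdeal B α := by
  induction α using Ordinal.limitRecOn with
  | zero =>
    refine ⟨?_, fun β hβ => absurd hβ (by simp)⟩
    rw [CBIdeal_zero]
    exact ⟨rfl, by rintro a rfl b rfl; simp, by rintro a rfl b hb; exact le_bot_iff.1 hb⟩
  | add_one o ih =>
    rw [CBIdeal_succ]
    refine ⟨ih.1.cbNext, fun β hβ => ?_⟩
    have h1 := subset_cbNext ih.1
    rcases (Order.lt_add_one_iff.1 hβ).lt_or_eq with h | h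
    · exact (ih.2 β h).trans h1
    · rw [h]; exact h1
  | limit o ho ih =>
    have hmono : ∀ β < o, ∀ γ < o, β ≤ γ → CBIdeal B β ⊆ CBIdeal B γ := by
      intro β hβ γ hγ h
      rcases h.lt_or_eq with h | h
      · exact (ih γ hγ).2 β h
      · rw [h]
    rw [CBIdeal_limit ho]
    refine ⟨⟨?_, ?_, ?_⟩, fun β hβ b hb => ⟨β, hβ, hb⟩⟩
    · obtain ⟨β, hβ⟩ : ∃ β, β < o := ⟨0, ho.bot_lt⟩
      exact ⟨β, hβ, (ih β hβ).1.bot⟩
    · rintro a ⟨β, hβ, ha⟩ b ⟨γ, hγ, hb⟩
      rcases le_total β γ with h | h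
      · exact ⟨γ, hγ, (ih γ hγ).1.sup _ (hmono β hβ γ hγ h ha) _ hb⟩
      · exact ⟨β, hβ, (ih β hβ).1.sup _ ha _ (hmono γ hγ β hβ h hb)⟩
    · rintro a ⟨β, hβ, ha⟩ b hb
      exact ⟨β, hβ, (ih β hβ).1.low _ ha _ hb⟩

theorem CBIdeal_isId (α : Ordinal.{u}) : IsId (CBIdeal B α) := (CBIdeal_isId_mono α).1

theorem CBIdeal_mono {α β : Ordinal.{u}} (h : α ≤ β) : CBIdeal B α ⊆ CBIdeal B β := by
  rcases h.lt_or_eq with h | h
  · exact (CBIdeal_isId_mono β).2 α h
  · rw [h]

theorem mem_next_of_atom {J : Set B} (hJ : IsId J) {a : B} (ha : IsAtomMod J a) :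
    a ∈ cbNext J := by
  refine ⟨{a}, by simpa using ha, ?_⟩
  simpa using hJ.bot

/-! ### Sanity checks for the definitions (not used in the proof) -/

/-- `IsAtomMod J a` says that the image of `a` in the quotient by `J` is an atom. -/
theorem isAtomMod_iff {C : Type u} [BooleanAlgebra C] (f : BoundedLatticeHom B C)
    (hf : Function.Surjective f) {J : Set B} (hJ : ∀ b, f b = ⊥ ↔ b ∈ J) (a : B) :
    IsAtomMod J a ↔ IsAtom (f a) := by
  constructor
  · rintro ⟨h1, h2⟩
    refine ⟨fun h => h1 ((hJ a).1 h), fun c hc => ?_⟩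
    obtain ⟨d, rfl⟩ := hf c
    rcases h2 d with h3 | h3
    · have h4 := (hJ _).2 h3
      rw [map_inf, inf_eq_right.2 hc.le] at h4
      exact h4
    · have h4 := (hJ _).2 h3
      rw [map_sdiff', sdiff_eq_bot_iff] at h4
      exact absurd h4 (not_le_of_gt hc)
  · intro h
    refine ⟨fun h1 => h.1 ((hJ a).2 h1), fun c => ?_⟩
    rcases (inf_le_left : f a ⊓ f c ≤ f a).lt_or_eq with h1 | h1
    · left
      rw [← hJ, map_inf]
      exact h.2 _ h1
    · right
      rw [← hJ, map_sdiff', sdiff_eq_bot_iff]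
      exact inf_eq_left.1 h1

/-- `cbNext J` is the preimage of the ideal generated by the atoms of the quotient by `J`. -/
theorem mem_cbNext_iff {C : Type u} [BooleanAlgebra C] (f : BoundedLatticeHom B C)
    (hf : Function.Surjective f) {J : Set B} (hJ : ∀ b, f b = ⊥ ↔ b ∈ J) (b : B) :
    b ∈ cbNext J ↔ ∃ T : Finset C, (∀ t ∈ T, IsAtom t) ∧ f b ≤ T.sup id := by
  classical
  constructor
  · rintro ⟨S, hS, hb⟩
    refine ⟨S.image f, ?_, ?_⟩
    · intro t ht
      obtain ⟨a, ha, rfl⟩ := Finset.mem_image.1 ht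
      exact (isAtomMod_iff f hf hJ a).1 (hS a ha)
    · have h1 := (hJ _).2 hb
      rw [map_sdiff', sdiff_eq_bot_iff, map_finset_sup] at h1
      rw [Finset.sup_image]
      exact h1
  · rintro ⟨T, hT, hb⟩
    choose g hg using hf
    refine ⟨T.image g, ?_, ?_⟩
    · intro a ha
      obtain ⟨t, ht, rfl⟩ := Finset.mem_image.1 ha
      rw [isAtomMod_iff f (fun c => ⟨g c, hg c⟩) hJ, hg]
      exact hT t ht
    · rw [← hJ, map_sdiff', sdiff_eq_bot_iff, map_finset_sup, Finset.sup_image]
      refine hb.trans (le_of_eq ?_)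
      refine Finset.sup_congr rfl fun t _ => ?_
      simp [hg]

/-- For `c ≠ 0` of some rank, `rk c < α` if and only if `c ∈ I_α`. -/
theorem rk_lt_iff {c : B} (hc : c ≠ ⊥) (h : ∃ β, c ∈ CBIdeal B β) (α : Ordinal.{u}) :
    rk c < α ↔ c ∈ CBIdeal B α := by
  have hne : {α | c ∈ CBIdeal B (α + 1)}.Nonempty := by
    obtain ⟨β, hβ⟩ := h
    exact ⟨β, CBIdeal_mono (le_add_of_nonneg_right zero_le_one) hβ⟩
  constructor
  · intro h1
    exact CBIdeal_mono (Order.add_one_le_of_lt h1) (csInf_mem hne)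
  · induction α using Ordinal.limitRecOn with
    | zero => intro h1; rw [CBIdeal_zero] at h1; exact absurd h1 hc
    | add_one o _ => intro h1; exact Order.lt_add_one_iff.2 (csInf_le' h1)
    | limit o ho ih =>
      intro h1
      rw [CBIdeal_limit ho] at h1
      obtain ⟨β, hβ, h2⟩ := h1
      exact (ih β hβ h2).trans hβ

end Ideals

/-! ## Points of a poset algebra -/

/-- The evaluation of elements of `B` at the points of the dual space (the up-sets of `P`). -/
structure Ev {P B : Type u} [BooleanAlgebra B] (le : P → P → Prop) (x : P → B)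
    (ev : Set P → B → Prop) : Prop where
  bot : ∀ F, Low le F → ¬ ev F ⊥
  sup : ∀ F, Low le F → ∀ a b, ev F (a ⊔ b) ↔ ev F a ∨ ev F b
  inf : ∀ F, Low le F → ∀ a b, ev F (a ⊓ b) ↔ ev F a ∧ ev F b
  compl : ∀ F, Low le F → ∀ a, ev F aᶜ ↔ ¬ ev F a
  gen : ∀ F, Low le F → ∀ p, ev F (x p) ↔ p ∈ F
  complete : ∀ J : Set B, IsId J → ∀ w, w ∉ J → ∃ F, Low le F ∧ ev F w ∧ ∀ j ∈ J, ¬ ev F j
  closure : BooleanSubalgebra.closure (Set.range x) = ⊤

section Points
variable {P B : Type u} [BooleanAlgebra B] {le : P → P → Prop} {x : P → B}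
  {ev : Set P → B → Prop}

theorem Ev.sdiff (h : Ev le x ev) {F : Set P} (hF : Low le F) (a b : B) :
    ev F (a \ b) ↔ ev F a ∧ ¬ ev F b := by
  rw [_root_.sdiff_eq, h.inf F hF, h.compl F hF]

theorem Ev.symmDiff (h : Ev le x ev) {F : Set P} (hF : Low le F) (a b : B) :
    ev F (symmDiff a b) ↔ (ev F a ∧ ¬ ev F b) ∨ (ev F b ∧ ¬ ev F a) := by
  rw [_root_.symmDiff, h.sup F hF, h.sdiff hF, h.sdiff hF]

theorem Ev.top (h : Ev le x ev) {F : Set P} (hF : Low le F) : ev F ⊤ := by
  rw [← compl_bot, h.compl F hF]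
  exact h.bot F hF

theorem Ev.finset_sup (h : Ev le x ev) {F : Set P} (hF : Low le F) {ι : Type*} (S : Finset ι)
    (g : ι → B) : ev F (S.sup g) ↔ ∃ a ∈ S, ev F (g a) := by
  classical
  induction S using Finset.induction_on with
  | empty => simpa using h.bot F hF
  | insert a S ha ih => rw [Finset.sup_insert, h.sup F hF, ih]; simp

theorem Ev.finset_inf (h : Ev le x ev) {F : Set P} (hF : Low le F) {ι : Type*} (S : Finset ι)
    (g : ι → B) : ev F (S.inf g) ↔ ∀ a ∈ S, ev F (g a) := by
  classical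
  induction S using Finset.induction_on with
  | empty => simpa using h.top hF
  | insert a S ha ih => rw [Finset.inf_insert, h.inf F hF, ih]; simp

theorem Ev.mono (h : Ev le x ev) {F : Set P} (hF : Low le F) {a b : B} (hab : a ≤ b)
    (ha : ev F a) : ev F b := by
  rw [← sup_eq_right.2 hab, h.sup F hF]
  exact Or.inl ha

theorem isId_bot : IsId ({⊥} : Set B) :=
  ⟨rfl, by rintro a rfl b rfl; simp, by rintro a rfl b hb; exact le_bot_iff.1 hb⟩

theorem Ev.le_of (h : Ev le x ev) {a b : B} (hab : ∀ F, Low le F → ev F a → ev F b) :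
    a ≤ b := by
  by_contra hcon
  have h1 : a \ b ∉ ({⊥} : Set B) := by
    simpa [sdiff_eq_bot_iff] using hcon
  obtain ⟨F, hF, h2, _⟩ := h.complete _ isId_bot _ h1
  rw [h.sdiff hF] at h2
  exact h2.2 (hab F hF h2.1)

/-- Elements of `B` are locally determined by finitely many coordinates. -/
theorem Ev.local (h : Ev le x ev) (b : B) (F : Set P) (hF : Low le F) :
    ∃ S : Finset P, ∀ G, Low le G → (∀ p ∈ S, (p ∈ G ↔ p ∈ F)) → (ev G b ↔ ev F b) := by
  classical
  have hb : b ∈ BooleanSubalgebra.closure (Set.range x) := by rw [h.closure]; trivial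
  induction hb using BooleanSubalgebra.closure_bot_sup_induction with
  | mem c hc =>
    obtain ⟨p, rfl⟩ := hc
    refine ⟨{p}, fun G hG h1 => ?_⟩
    rw [h.gen G hG, h.gen F hF]
    exact h1 p (by simp)
  | bot =>
    refine ⟨∅, fun G hG _ => ?_⟩
    exact ⟨fun h1 => absurd h1 (h.bot G hG), fun h1 => absurd h1 (h.bot F hF)⟩
  | sup c hc d hd ih1 ih2 =>
    obtain ⟨S, hS⟩ := ih1
    obtain ⟨T, hT⟩ := ih2
    refine ⟨S ∪ T, fun G hG h1 => ?_⟩
    rw [h.sup G hG, h.sup F hF, hS G hG fun p hp => h1 p (by simp [hp]),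
      hT G hG fun p hp => h1 p (by simp [hp])]
  | compl c hc ih =>
    obtain ⟨S, hS⟩ := ih
    refine ⟨S, fun G hG h1 => ?_⟩
    rw [h.compl G hG, h.compl F hF, hS G hG h1]

/-- Superatomicity implies that the space of points is scattered. -/
theorem Ev.scattered (h : Ev le x ev) (hsa : Superatomic B) (K : Set (Set P))
    (hK : ∀ F ∈ K, Low le F) (hne : K.Nonempty) :
    ∃ F ∈ K, ∃ b : B, ev F b ∧ ∀ G ∈ K, ev G b → G = F := by
  classical
  let f : BoundedLatticeHom B (Set K) :=
    { toFun := fun b => {F | ev F.1 b}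
      map_sup' := fun a b => by
        ext F; exact h.sup F.1 (hK _ F.2) a b
      map_inf' := fun a b => by
        ext F; exact h.inf F.1 (hK _ F.2) a b
      map_top' := by
        ext F; simpa using h.top (hK _ F.2)
      map_bot' := by
        ext F; simpa using h.bot _ (hK _ F.2) }
  let C : BooleanSubalgebra (Set K) := BooleanSubalgebra.map f ⊤
  let g : BoundedLatticeHom B C :=
    { toFun := fun b => ⟨f b, ⟨b, trivial, rfl⟩⟩
      map_sup' := fun a b => Subtype.ext (map_sup f a b)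
      map_inf' := fun a b => Subtype.ext (map_inf f a b)
      map_top' := Subtype.ext (map_top f)
      map_bot' := Subtype.ext (map_bot f) }
  have hg : Function.Surjective g := by
    rintro ⟨c, b, _, rfl⟩
    exact ⟨b, rfl⟩
  have hat : IsAtomic C := hsa C g hg
  have htop : (⊤ : C) ≠ ⊥ := by
    intro he
    obtain ⟨F, hF⟩ := hne
    have : (⟨F, hF⟩ : K) ∈ ((⊤ : C) : Set K) := trivial
    rw [he] at this
    exact this
  obtain ⟨a, ha, -⟩ := (hat.eq_bot_or_exists_atom_le (⊤ : C)).resolve_left htop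
  obtain ⟨b, rfl⟩ := hg a
  have hneb : ∃ F : K, ev F.1 b := by
    by_contra hcon
    push Not at hcon
    refine ha.1 (Subtype.ext ?_)
    ext F
    exact ⟨fun h1 => absurd h1 (hcon F), fun h1 => absurd h1 (by simp)⟩
  obtain ⟨F, hFb⟩ := hneb
  refine ⟨F.1, F.2, b, hFb, fun G hG hGb => ?_⟩
  have hkey : ∀ p, (p ∈ F.1 → p ∈ G) ∧ (p ∈ G → p ∈ F.1) := by
    intro p
    have h1 : g b ⊓ g (x p) ≤ g b := inf_le_left
    have hmem : ∀ E : K, (E ∈ ((g b ⊓ g (x p) : C) : Set K)) ↔ (ev E.1 b ∧ p ∈ E.1) := by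
      intro E
      have : E ∈ ((g b ⊓ g (x p) : C) : Set K) ↔ ev E.1 b ∧ ev E.1 (x p) := Iff.rfl
      rw [this, h.gen _ (hK _ E.2)]
    rcases h1.lt_or_eq with h2 | h2
    · have h3 := ha.2 _ h2
      have h4 : ∀ E : K, ¬ (ev E.1 b ∧ p ∈ E.1) := by
        intro E hE
        have := (hmem E).2 hE
        rw [h3] at this
        exact this
      exact ⟨fun hp => absurd ⟨hFb, hp⟩ (h4 F), fun hp => absurd ⟨hGb, hp⟩ (h4 ⟨G, hG⟩)⟩
    · have h4 : ∀ E : K, ev E.1 b → p ∈ E.1 := by
        intro E hE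
        have : E ∈ ((g b ⊓ g (x p) : C) : Set K) := by rw [h2]; exact hE
        exact ((hmem E).1 this).2
      exact ⟨fun _ => h4 ⟨G, hG⟩ hGb, fun _ => h4 F hFb⟩
  ext p
  exact ⟨(hkey p).2, (hkey p).1⟩

/-- Superatomicity implies the finite antichain condition. -/
theorem Ev.fac (h : Ev le x ev) (hsa : Superatomic B) (hrefl : ∀ p, le p p)
    (htrans : ∀ p q r, le p q → le q r → le p r) : FAC le := by
  classical
  intro f
  by_contra hcon
  push Not at hcon
  let FT : Set ℕ → Set P := fun T => {p | ∃ i ∈ T, le p (f i)}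
  have hlow : ∀ T, Low le (FT T) := by
    rintro T p q hpq ⟨i, hi, hq⟩
    exact ⟨i, hi, htrans _ _ _ hpq hq⟩
  obtain ⟨F, ⟨T, hT, rfl⟩, b, hb, huniq⟩ := h.scattered hsa {F | ∃ T : Set ℕ, T.Infinite ∧ FT T = F}
    (by rintro F ⟨T, _, rfl⟩; exact hlow T) ⟨_, Set.univ, Set.infinite_univ, rfl⟩
  obtain ⟨S, hS⟩ := h.local b (FT T) (hlow T)
  -- choose witnesses for the members of `S` in `FT T`
  have hw : ∀ s : P, ∃ i : ℕ, s ∈ FT T → i ∈ T ∧ le s (f i) := by
    intro s
    by_cases hs : s ∈ FT T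
    · obtain ⟨i, hi, h1⟩ := hs
      exact ⟨i, fun _ => ⟨hi, h1⟩⟩
    · exact ⟨0, fun h1 => absurd h1 hs⟩
  choose w hw using hw
  obtain ⟨t, htT, htS⟩ := (hT.sdiff (S.image w).finite_toSet).nonempty
  have hT' : (T \ {t}).Infinite := hT.sdiff (Set.finite_singleton t)
  have hsub : FT (T \ {t}) ⊆ FT T := by
    rintro p ⟨i, hi, h1⟩
    exact ⟨i, hi.1, h1⟩
  have hagree : ∀ p ∈ S, (p ∈ FT (T \ {t}) ↔ p ∈ FT T) := by
    intro p hp
    refine ⟨fun h1 => hsub h1, fun h1 => ?_⟩
    obtain ⟨h2, h3⟩ := hw p h1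
    refine ⟨w p, ⟨h2, ?_⟩, h3⟩
    rintro rfl
    exact htS (by simpa using ⟨p, hp, rfl⟩)
  have hev := (hS _ (hlow _) hagree).2 hb
  have heq := huniq _ ⟨_, hT', rfl⟩ hev
  have hft : f t ∈ FT (T \ {t}) := by
    rw [heq]
    exact ⟨t, htT, hrefl _⟩
  obtain ⟨i, hi, h1⟩ := hft
  have hne : i ≠ t := fun h2 => hi.2 h2
  rcases lt_or_gt_of_ne hne with h2 | h2
  · exact (hcon i t h2).2 h1
  · exact (hcon t i h2).1 h1

/-- Superatomicity: the Cantor-Bendixson ideals exhaust `B`. -/
theorem Ev.exists_top (h : Ev le x ev) (hsa : Superatomic B) : ∃ α, (⊤ : B) ∈ CBIdeal B α := by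
  classical
  by_contra hcon
  push Not at hcon
  have hlt : ∀ α : Ordinal.{u}, ∃ b, b ∈ CBIdeal B (α + 1) ∧ b ∉ CBIdeal B α := by
    intro α
    have hid := CBIdeal_isId (B := B) α
    obtain ⟨F₀, hF₀, _, hF₀'⟩ := h.complete _ hid _ (hcon α)
    obtain ⟨F, ⟨hF, hFJ⟩, b, hb, huniq⟩ := h.scattered hsa
      {F | Low le F ∧ ∀ j ∈ CBIdeal B α, ¬ ev F j} (fun F hF => hF.1) ⟨F₀, hF₀, hF₀'⟩
    have hbJ : b ∉ CBIdeal B α := fun h1 => hFJ b h1 hb
    refine ⟨b, ?_, hbJ⟩
    rw [CBIdeal_succ]
    refine mem_next_of_atom hid ⟨hbJ, fun c => ?_⟩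
    by_contra hc
    rw [not_or] at hc
    obtain ⟨G, hG, h1, h2⟩ := h.complete _ hid _ hc.1
    obtain ⟨G', hG', h1', h2'⟩ := h.complete _ hid _ hc.2
    rw [h.inf G hG] at h1
    rw [h.sdiff hG'] at h1'
    have e1 := huniq G ⟨hG, h2⟩ h1.1
    have e2 := huniq G' ⟨hG', h2'⟩ h1'.1
    rw [e1] at h1
    rw [e2] at h1'
    exact h1'.2 h1.2
  refine not_injective_of_ordinal (fun α : Ordinal.{u} => CBIdeal B α) ?_
  intro α β hαβ
  by_contra hne
  have key : ∀ α β : Ordinal.{u}, α < β → CBIdeal B α ≠ CBIdeal B β := by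
    intro α β hlt' he
    obtain ⟨b, h1, h2⟩ := hlt α
    have h3 : CBIdeal B (α + 1) ⊆ CBIdeal B β := CBIdeal_mono (Order.add_one_le_of_lt hlt')
    exact h2 (by rw [he]; exact h3 h1)
  rcases lt_or_gt_of_ne hne with h1 | h1
  · exact key _ _ h1 hαβ
  · exact key _ _ h1 hαβ.symm

/-! ## The rank of points -/

variable (ev) in
/-- The Cantor-Bendixson rank of a point. -/
noncomputable def prk (F : Set P) : Ordinal.{u} := sInf {α | ∃ b ∈ CBIdeal B (α + 1), ev F b}

theorem Ev.prk_lt (h : Ev le x ev) {F : Set P} (hF : Low le F) (α : Ordinal.{u}) :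
    ∀ b ∈ CBIdeal B α, ev F b → prk ev F < α := by
  induction α using Ordinal.limitRecOn with
  | zero =>
    intro b hb h1
    rw [CBIdeal_zero] at hb
    rw [hb] at h1
    exact absurd h1 (h.bot F hF)
  | add_one o ih =>
    intro b hb h1
    exact Order.lt_add_one_iff.2 (csInf_le' ⟨b, hb, h1⟩)
  | limit o ho ih =>
    intro b hb h1
    rw [CBIdeal_limit ho] at hb
    obtain ⟨β, hβ, hb⟩ := hb
    exact (ih β hβ b hb h1).trans hβ

theorem Ev.exists_prk (h : Ev le x ev) (hsa : Superatomic B) {F : Set P} (hF : Low le F) :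
    ∃ b ∈ CBIdeal B (prk ev F + 1), ev F b := by
  obtain ⟨α, hα⟩ := h.exists_top hsa
  have hne : {α | ∃ b ∈ CBIdeal B (α + 1), ev F b}.Nonempty :=
    ⟨α, ⊤, CBIdeal_mono (le_add_of_nonneg_right zero_le_one) hα, h.top hF⟩
  exact csInf_mem hne

theorem Ev.exists_atom (h : Ev le x ev) (hsa : Superatomic B) {F : Set P} (hF : Low le F) :
    ∃ a, IsAtomMod (CBIdeal B (prk ev F)) a ∧ ev F a := by
  obtain ⟨b, hb, h1⟩ := h.exists_prk hsa hF
  rw [CBIdeal_succ] at hb
  obtain ⟨S, hS, hb⟩ := hb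
  have h2 : ev F (S.sup id) := by
    by_contra hcon
    have := h.prk_lt hF _ _ hb ((h.sdiff hF _ _).2 ⟨h1, hcon⟩)
    exact lt_irrefl _ this
  rw [h.finset_sup hF] at h2
  obtain ⟨a, ha, h3⟩ := h2
  exact ⟨a, hS a ha, h3⟩

theorem Ev.atom_unique (h : Ev le x ev) {F G : Set P} (hF : Low le F) (hG : Low le G)
    {α : Ordinal.{u}} {a : B} (ha : IsAtomMod (CBIdeal B α) a) (hFa : ev F a) (hGa : ev G a)
    (h1 : α ≤ prk ev F) (h2 : α ≤ prk ev G) : G = F := by
  have key : ∀ F G : Set P, Low le F → Low le G → ev F a → ev G a → α ≤ prk ev F →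
      α ≤ prk ev G → ∀ p, p ∈ F → p ∈ G := by
    intro F G hF hG hFa hGa h1 h2 p hp
    by_contra hpG
    rcases ha.2 (x p) with h3 | h3
    · have := h.prk_lt hF _ _ h3 ((h.inf F hF _ _).2 ⟨hFa, (h.gen F hF p).2 hp⟩)
      exact absurd h1 (not_le.2 this)
    · have := h.prk_lt hG _ _ h3 ((h.sdiff hG _ _).2 ⟨hGa, fun h4 => hpG ((h.gen G hG p).1 h4)⟩)
      exact absurd h2 (not_le.2 this)
  ext p
  exact ⟨key G F hG hF hGa hFa h2 h1 p, key F G hF hG hFa hGa h1 h2 p⟩

theorem Ev.complete_rk (h : Ev le x ev) (hsa : Superatomic B) {α : Ordinal.{u}} {w : B}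
    (hw : w ∉ CBIdeal B α) : ∃ F, Low le F ∧ ev F w ∧ α ≤ prk ev F := by
  obtain ⟨F, hF, h1, h2⟩ := h.complete _ (CBIdeal_isId α) w hw
  refine ⟨F, hF, h1, ?_⟩
  by_contra hcon
  rw [not_le] at hcon
  obtain ⟨b, hb, h3⟩ := h.exists_prk hsa hF
  exact h2 b (CBIdeal_mono (Order.add_one_le_of_lt hcon) hb) h3

theorem Ev.isRank (h : Ev le x ev) (hsa : Superatomic B) : IsRank le (prk ev) := by
  classical
  constructor
  · intro D hD
    obtain ⟨a, ha, h1⟩ := h.exists_atom hsa hD
    obtain ⟨S, hS⟩ := h.local a D hD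
    refine ⟨S, fun G hG h2 hne => ?_⟩
    have h3 := (hS G hG h2).2 h1
    by_contra hcon
    rw [not_lt] at hcon
    exact hne (h.atom_unique hD hG ha h1 h3 le_rfl hcon)
  · intro D hD β hβ S
    by_contra hcon
    push Not at hcon
    -- the basic element determined by `S` and `D`
    let v : B := S.inf fun p => if p ∈ D then x p else (x p)ᶜ
    have hv : ∀ G, Low le G → (ev G v ↔ ∀ p ∈ S, (p ∈ G ↔ p ∈ D)) := by
      intro G hG
      rw [h.finset_inf hG]
      refine forall₂_congr fun p _ => ?_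
      by_cases hp : p ∈ D
      · simp only [hp, if_true, iff_true]
        exact h.gen G hG p
      · simp only [hp, if_false, iff_false]
        rw [h.compl G hG, h.gen G hG p]
    have hvD : ev D v := (hv D hD).2 fun p _ => Iff.rfl
    have hid := CBIdeal_isId (B := B) β
    have hstep : ∀ w, w ≤ v → ¬ ev D w → w ∈ CBIdeal B β := by
      intro w hw hDw
      by_contra hc
      obtain ⟨G, hG, h1, h2⟩ := h.complete_rk hsa hc
      have h3 := (hv G hG).1 (h.mono hG hw h1)
      have h4 := hcon G hG h3 (by rintro rfl; exact hDw h1)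
      exact absurd h2 (not_le.2 h4)
    have hvmem : v ∈ CBIdeal B (β + 1) := by
      rw [CBIdeal_succ]
      by_cases hvJ : v ∈ CBIdeal B β
      · exact subset_cbNext hid hvJ
      · refine mem_next_of_atom hid ⟨hvJ, fun c => ?_⟩
        by_cases hc : ev D c
        · right
          refine hstep _ sdiff_le ?_
          rw [h.sdiff hD]
          exact fun h1 => h1.2 hc
        · left
          refine hstep _ inf_le_left ?_
          rw [h.inf D hD]
          exact fun h1 => hc h1.2
    have := h.prk_lt hD _ _ hvmem hvD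
    exact absurd hβ (not_lt.2 (Order.lt_add_one_iff.1 this))

/-! ## From a transitive selector to canonical well-generation -/

theorem Ev.cwg (h : Ev le x ev) (hsa : Superatomic B) (hrefl : ∀ p, le p p)
    (htrans : ∀ p q r, le p q → le q r → le p r) : CanonicallyWellGenerated B := by
  classical
  have hr := h.isRank hsa
  obtain ⟨a, b, hsel⟩ := exists_selector hr hrefl (h.fac hsa hrefl htrans)
  let r : Set P → Ordinal.{u} := prk ev
  let U : Set P → B := fun D => (a D).inf x ⊓ (b D).inf fun p => (x p)ᶜ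
  have hU : ∀ D G, Low le G → (ev G (U D) ↔ (∀ p ∈ a D, p ∈ G) ∧ ∀ p ∈ b D, p ∉ G) := by
    intro D G hG
    have e1 : ev G (U D) ↔ ev G ((a D).inf x) ∧ ev G ((b D).inf fun p => (x p)ᶜ) :=
      h.inf G hG _ _
    rw [e1, h.finset_inf hG, h.finset_inf hG]
    refine and_congr (forall₂_congr fun p _ => h.gen G hG p) (forall₂_congr fun p _ => ?_)
    rw [h.compl G hG, h.gen G hG]
  have hUself : ∀ D, Low le D → ev D (U D) := fun D hD =>
    (hU D D hD).2 ⟨(hsel D hD).1, (hsel D hD).2.1⟩
  have hUlt : ∀ D, Low le D → ∀ G, Low le G → ev G (U D) → G ≠ D → r G < r D := by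
    intro D hD G hG h1 hne
    rw [hU D G hG] at h1
    exact (hsel D hD).2.2.1 G hG h1.1 h1.2 hne
  have hUtrans : ∀ D, Low le D → ∀ G, Low le G → ev G (U D) → U G ≤ U D := by
    intro D hD G hG h1
    rw [hU D G hG] at h1
    refine h.le_of fun K hK h2 => ?_
    rw [hU G K hK] at h2
    rw [hU D K hK]
    exact (hsel D hD).2.2.2 G hG h1.1 h1.2 K hK h2.1 h2.2
  -- the representatives
  let H : Ordinal.{u} → Set B := fun α => {c | ∃ D, Low le D ∧ r D = α ∧ c = U D}
  have hrktop : ∀ D, Low le D → r D ≤ rk (⊤ : B) := by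
    intro D hD
    have hne : {α | (⊤ : B) ∈ CBIdeal B (α + 1)}.Nonempty := by
      obtain ⟨α, hα⟩ := h.exists_top hsa
      exact ⟨α, CBIdeal_mono (le_add_of_nonneg_right zero_le_one) hα⟩
    have h1 : (⊤ : B) ∈ CBIdeal B (rk (⊤ : B) + 1) := csInf_mem hne
    exact Order.lt_add_one_iff.1 (h.prk_lt hD _ _ h1 (h.top hD))
  have hUH : ∀ D, Low le D → U D ∈ ⋃ α ∈ Set.Iic (rk (⊤ : B)), H α := by
    intro D hD
    simp only [Set.mem_iUnion]
    exact ⟨r D, hrktop D hD, D, hD, rfl, rfl⟩
  have hUat : ∀ D, Low le D → IsAtomMod (CBIdeal B (r D)) (U D) := by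
    intro D hD
    refine ⟨fun h1 => lt_irrefl _ (h.prk_lt hD _ _ h1 (hUself D hD)), fun c => ?_⟩
    by_cases hc : ev D c
    · right
      by_contra hcon
      obtain ⟨G, hG, h1, h2⟩ := h.complete_rk hsa hcon
      rw [h.sdiff hG] at h1
      have := hUlt D hD G hG h1.1 (by rintro rfl; exact h1.2 hc)
      exact absurd h2 (not_le.2 this)
    · left
      by_contra hcon
      obtain ⟨G, hG, h1, h2⟩ := h.complete_rk hsa hcon
      rw [h.inf G hG] at h1
      have := hUlt D hD G hG h1.1 (by rintro rfl; exact hc h1.2)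
      exact absurd h2 (not_le.2 this)
  refine ⟨H, ?_, ?_, ?_⟩
  · -- complete set of representatives
    intro α _
    refine ⟨?_, ?_⟩
    · rintro c ⟨D, hD, rfl, rfl⟩
      exact hUat D hD
    · intro c hc
      have hc' : IsAtomMod (CBIdeal B α) c := hc
      obtain ⟨F, hF, hFc, hαF⟩ := h.complete_rk hsa hc'.1
      have hcmem : c ∈ CBIdeal B (α + 1) := by
        rw [CBIdeal_succ]; exact mem_next_of_atom (CBIdeal_isId α) hc'
      have hrF : r F = α :=
        le_antisymm (Order.lt_add_one_iff.1 (h.prk_lt hF _ _ hcmem hFc)) hαF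
      refine ⟨U F, ⟨⟨F, hF, hrF, rfl⟩, ?_⟩, ?_⟩
      · by_contra hcon
        obtain ⟨G, hG, h1, h2⟩ := h.complete_rk hsa hcon
        rw [h.symmDiff hG] at h1
        rcases h1 with ⟨h3, h4⟩ | ⟨h3, h4⟩
        · have := h.atom_unique hF hG hc' hFc h3 hαF h2
          rw [this] at h4
          exact h4 (hUself F hF)
        · have h5 := hUlt F hF G hG h3 (by rintro rfl; exact h4 hFc)
          rw [hrF] at h5
          exact absurd h2 (not_le.2 h5)
      · rintro _ ⟨⟨D, hD, hrD, rfl⟩, h1⟩
        have h2 : ev D c := by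
          by_contra hcon
          have := h.prk_lt hD _ _ h1 ((h.symmDiff hD _ _).2 (Or.inr ⟨hUself D hD, hcon⟩))
          have h3 : prk ev D = α := hrD
          rw [h3] at this
          exact lt_irrefl _ this
        rw [h.atom_unique hF hD hc' hFc h2 hαF hrD.ge]
  · -- generation
    rw [eq_top_iff]
    intro c _
    set 𝒞 := BooleanSubalgebra.closure (⋃ α ∈ Set.Iic (rk (⊤ : B)), H α) with h𝒞
    have hUC : ∀ D, Low le D → U D ∈ 𝒞 := fun D hD =>
      BooleanSubalgebra.subset_closure (hUH D hD)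
    have hsep : ∀ F G, Low le F → Low le G → F ≠ G → ∃ d ∈ 𝒞, ev F d ∧ ¬ ev G d := by
      intro F G hF hG hne
      by_cases hle : r F ≤ r G
      · refine ⟨U F, hUC F hF, hUself F hF, fun h1 => ?_⟩
        exact absurd hle (not_le.2 (hUlt F hF G hG h1 hne.symm))
      · refine ⟨(U G)ᶜ, BooleanSubalgebra.compl_mem (hUC G hG), ?_, ?_⟩
        · rw [h.compl F hF]
          intro h1
          exact hle (hUlt G hG F hF h1 hne).le
        · rw [h.compl G hG, not_not]
          exact hUself G hG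
    -- first step
    have hstep : ∀ F, Low le F → ev F c → ∃ d ∈ 𝒞, ev F d ∧ d ≤ c := by
      intro F hF hFc
      by_contra hcon
      push Not at hcon
      have hJ : IsId {d : B | ∃ e ∈ 𝒞, ev F e ∧ e ⊓ d ≤ c} := by
        refine ⟨⟨⊤, BooleanSubalgebra.top_mem, h.top hF, by simp⟩, ?_, ?_⟩
        · rintro d ⟨e, he, h1, h2⟩ d' ⟨e', he', h1', h2'⟩
          refine ⟨e ⊓ e', BooleanSubalgebra.inf_mem he he', (h.inf F hF _ _).2 ⟨h1, h1'⟩, ?_⟩
          rw [inf_sup_left]
          refine sup_le ((inf_le_inf_right _ inf_le_left).trans h2)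
            ((inf_le_inf_right _ inf_le_right).trans h2')
        · rintro d ⟨e, he, h1, h2⟩ d' hd
          exact ⟨e, he, h1, (inf_le_inf_left _ hd).trans h2⟩
      have htop : (⊤ : B) ∉ {d : B | ∃ e ∈ 𝒞, ev F e ∧ e ⊓ d ≤ c} := by
        rintro ⟨e, he, h1, h2⟩
        rw [inf_top_eq] at h2
        exact hcon e he h1 h2
      obtain ⟨G, hG, _, h2⟩ := h.complete _ hJ _ htop
      have hGc : ¬ ev G c := h2 c ⟨⊤, BooleanSubalgebra.top_mem, h.top hF, by simp⟩
      have hne : F ≠ G := by rintro rfl; exact hGc hFc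
      obtain ⟨d, hd, h3, h4⟩ := hsep F G hF hG hne
      have h5 := h2 dᶜ ⟨d, hd, h3, by simp⟩
      rw [h.compl G hG, not_not] at h5
      exact h4 h5
    by_contra hcC
    have hJ : IsId {d : B | ∃ e ∈ 𝒞, e ≤ c ∧ d ≤ e} := by
      refine ⟨⟨⊥, BooleanSubalgebra.bot_mem, bot_le, le_rfl⟩, ?_, ?_⟩
      · rintro d ⟨e, he, h1, h2⟩ d' ⟨e', he', h1', h2'⟩
        exact ⟨e ⊔ e', BooleanSubalgebra.sup_mem he he', sup_le h1 h1', sup_le_sup h2 h2'⟩
      · rintro d ⟨e, he, h1, h2⟩ d' hd
        exact ⟨e, he, h1, hd.trans h2⟩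
    have hnot : c ∉ {d : B | ∃ e ∈ 𝒞, e ≤ c ∧ d ≤ e} := by
      rintro ⟨e, he, h1, h2⟩
      exact hcC (by rw [le_antisymm h2 h1]; exact he)
    obtain ⟨F, hF, h1, h2⟩ := h.complete _ hJ _ hnot
    obtain ⟨d, hd, h3, h4⟩ := hstep F hF h1
    exact h2 d ⟨d, hd, h4, le_rfl⟩ h3
  · -- well-foundedness
    intro f hf hanti
    -- every element of the generated lattice is closed under the selector
    have hclosed : ∀ c ∈ latticeClosure (⋃ α ∈ Set.Iic (rk (⊤ : B)), H α),
        ∀ G, Low le G → ev G c → U G ≤ c := by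
      intro c hc
      induction hc using latticeClosure_sup_inf_induction with
      | mem d hd =>
        simp only [Set.mem_iUnion] at hd
        obtain ⟨α, _, D, hD, _, rfl⟩ := hd
        exact fun G hG h1 => hUtrans D hD G hG h1
      | sup d hd e he ih1 ih2 =>
        intro G hG h1
        rw [h.sup G hG] at h1
        rcases h1 with h1 | h1
        · exact (ih1 G hG h1).trans le_sup_left
        · exact (ih2 G hG h1).trans le_sup_right
      | inf d hd e he ih1 ih2 =>
        intro G hG h1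
        rw [h.inf G hG] at h1
        exact le_inf (ih1 G hG h1.1) (ih2 G hG h1.2)
    have hfc : ∀ n G, Low le G → ev G (f n) → U G ≤ f n := fun n => hclosed _ (hf n)
    have hant : Antitone f := hanti.antitone
    -- covering lemma
    have hcover : ∀ (Q : Set P → Prop) (w : B), (∀ G, Low le G → ev G w → Q G) →
        ∃ T : Finset (Set P), (∀ G ∈ T, Low le G ∧ Q G) ∧ w ≤ T.sup U := by
      intro Q w hw
      by_contra hcon
      have hJ : IsId {d : B | ∃ T : Finset (Set P), (∀ G ∈ T, Low le G ∧ Q G) ∧ d ≤ T.sup U} := by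
        refine ⟨⟨∅, by simp, by simp⟩, ?_, ?_⟩
        · rintro d ⟨T, h1, h2⟩ d' ⟨T', h1', h2'⟩
          refine ⟨T ∪ T', fun G hG => ?_, ?_⟩
          · rcases Finset.mem_union.1 hG with h3 | h3
            · exact h1 G h3
            · exact h1' G h3
          · rw [Finset.sup_union]
            exact sup_le_sup h2 h2'
        · rintro d ⟨T, h1, h2⟩ d' hd
          exact ⟨T, h1, hd.trans h2⟩
      obtain ⟨G, hG, h1, h2⟩ := h.complete _ hJ w hcon
      refine h2 (U G) ⟨{G}, ?_, ?_⟩ (hUself G hG)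
      · intro G' hG'
        rw [Finset.mem_singleton.1 hG']
        exact ⟨hG, hw G hG h1⟩
      · simp
    -- stabilisation below a finite join
    have hstab : ∀ (T : Finset (Set P)) (w : B), w ≤ T.sup U →
        (∀ G ∈ T, ∃ N, ∀ n ≥ N, f n ⊓ U G = f N ⊓ U G) → ∃ N, ∀ n ≥ N, f n ⊓ w = f N ⊓ w := by
      intro T w hw hT
      have h1 : ∃ N, ∀ G ∈ T, ∀ n ≥ N, f n ⊓ U G = f N ⊓ U G := by
        clear hw
        induction T using Finset.induction_on with
        | empty => exact ⟨0, by simp⟩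
        | insert G T _ ih =>
          obtain ⟨N, hN⟩ := ih fun G' hG' => hT G' (Finset.mem_insert_of_mem hG')
          obtain ⟨M, hM⟩ := hT G (Finset.mem_insert_self _ _)
          refine ⟨max N M, fun G' hG' n hn => ?_⟩
          rcases Finset.mem_insert.1 hG' with rfl | hG'
          · rw [hM n (le_trans (le_max_right _ _) hn), hM (max N M) (le_max_right _ _)]
          · rw [hN G' hG' n (le_trans (le_max_left _ _) hn),
              hN G' hG' (max N M) (le_max_left _ _)]
      obtain ⟨N, hN⟩ := h1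
      refine ⟨N, fun n hn => ?_⟩
      refine le_antisymm (inf_le_inf_right _ (hant hn)) ?_
      refine h.le_of fun G hG h2 => ?_
      rw [h.inf G hG] at h2 ⊢
      refine ⟨?_, h2.2⟩
      have h3 := h.mono hG hw h2.2
      rw [h.finset_sup hG] at h3
      obtain ⟨G', hG', h4⟩ := h3
      have h5 : ev G (f N ⊓ U G') := (h.inf G hG _ _).2 ⟨h2.1, h4⟩
      rw [← hN G' hG' n hn, h.inf G hG] at h5
      exact h5.1
    have hmain : ∀ o : Ordinal.{u}, ∀ D, Low le D → r D = o →
        ∃ N, ∀ n ≥ N, f n ⊓ U D = f N ⊓ U D := by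
      intro o
      induction o using WellFoundedLT.induction with
      | ind o ih =>
        intro D hD hro
        by_cases hall : ∀ n, ev D (f n)
        · refine ⟨0, fun n _ => ?_⟩
          rw [inf_eq_right.2 (hfc n D hD (hall n)), inf_eq_right.2 (hfc 0 D hD (hall 0))]
        · push Not at hall
          obtain ⟨m, hm⟩ := hall
          obtain ⟨T, hT, hle⟩ := hcover (fun G => r G < r D) (f m ⊓ U D) (by
            intro G hG h1
            rw [h.inf G hG] at h1
            exact hUlt D hD G hG h1.2 (by rintro rfl; exact hm h1.1))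
          obtain ⟨N, hN⟩ := hstab T _ hle fun G hG =>
            ih (r G) (by rw [← hro]; exact (hT G hG).2) G (hT G hG).1 rfl
          refine ⟨max N m, fun n hn => ?_⟩
          have e : ∀ k ≥ m, f k ⊓ (f m ⊓ U D) = f k ⊓ U D := by
            intro k hk
            rw [← inf_assoc, inf_eq_left.2 (hant hk)]
          rw [← e n (le_trans (le_max_right _ _) hn), ← e (max N m) (le_max_right _ _),
            hN n (le_trans (le_max_left _ _) hn), hN (max N m) (le_max_left _ _)]
    obtain ⟨T, hT, hle⟩ := hcover (fun _ => True) ⊤ fun _ _ _ => trivial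
    obtain ⟨N, hN⟩ := hstab T ⊤ hle fun G hG => hmain _ G (hT G hG).1 rfl
    have h1 := hN (N + 1) (Nat.le_succ N)
    rw [inf_top_eq, inf_top_eq] at h1
    exact absurd h1 (hanti (Nat.lt_succ_self N)).ne

end Points

/-! ## Homomorphisms into `Prop` -/

section Prime
variable {B : Type u} [BooleanAlgebra B]

/-- Boolean prime ideal theorem. -/
theorem exists_hom (J : Set B) (hJ : IsId J) (w : B) (hw : w ∉ J) :
    ∃ φ : BoundedLatticeHom B Prop, φ w ∧ ∀ j ∈ J, ¬ φ j := by
  classical
  let I : Order.Ideal B :=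
    { carrier := J
      lower' := fun a b hba ha => hJ.low a ha b hba
      nonempty' := ⟨⊥, hJ.bot⟩
      directed' := fun a ha b hb => ⟨a ⊔ b, hJ.sup a ha b hb, le_sup_left, le_sup_right⟩ }
  let F : Order.PFilter B := Order.PFilter.principal w
  have hdisj : Disjoint (F : Set B) (I : Set B) := by
    rw [Set.disjoint_left]
    intro a ha ha'
    have h1 : w ≤ a := Order.PFilter.mem_principal.1 ha
    exact hw (hJ.low a ha' w h1)
  obtain ⟨K, hK, hIK, hFK⟩ := DistribLattice.prime_ideal_of_disjoint_filter_ideal hdisj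
  have hwK : w ∉ K := fun h =>
    Set.disjoint_left.1 hFK (Order.PFilter.mem_principal.2 (le_refl w)) h
  have htop : (⊤ : B) ∉ K := fun h => hwK (K.lower le_top h)
  refine ⟨{ toFun := fun a => a ∉ K
            map_sup' := ?_
            map_inf' := ?_
            map_top' := ?_
            map_bot' := ?_ }, hwK, fun j hj h => h (hIK hj)⟩
  · intro a b
    refine propext ?_
    change (a ⊔ b ∉ K) ↔ (a ∉ K ∨ b ∉ K)
    rw [Order.Ideal.sup_mem_iff]
    tauto
  · intro a b
    refine propext ?_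
    change (a ⊓ b ∉ K) ↔ (a ∉ K ∧ b ∉ K)
    constructor
    · intro h
      exact ⟨fun h1 => h (K.lower inf_le_left h1), fun h1 => h (K.lower inf_le_right h1)⟩
    · rintro ⟨h1, h2⟩ h3
      rcases hK.mem_or_mem h3 with h4 | h4
      · exact h1 h4
      · exact h2 h4
  · refine propext ?_
    change (⊤ : B) ∉ K ↔ True
    simp [htop]
  · refine propext ?_
    change (⊥ : B) ∉ K ↔ False
    simp

/-- The homomorphism `Prop → Set PUnit`. -/
def propHom : BoundedLatticeHom Prop (Set PUnit.{u + 1}) where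
  toFun p := {_y | p}
  map_sup' _ _ := rfl
  map_inf' _ _ := rfl
  map_top' := rfl
  map_bot' := rfl

end Prime

/-! ## The universal property gives the evaluations -/

theorem IsPosetAlgebra.closure_eq {P : Type u} [PartialOrder P] {B : Type u} [BooleanAlgebra B]
    {x : P → B} (h : IsPosetAlgebra x) : BooleanSubalgebra.closure (Set.range x) = ⊤ := by
  set C := BooleanSubalgebra.closure (Set.range x) with hC
  obtain ⟨φ, hφ, -⟩ := h.lift C (fun p => ⟨x p, BooleanSubalgebra.subset_closure ⟨p, rfl⟩⟩)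
    (fun p q hpq => h.mono hpq)
  obtain ⟨ψ, -, hψ⟩ := h.lift B x h.mono
  have h1 : C.subtype.comp φ = ψ := hψ _ fun p => by
    change ((φ (x p) : C) : B) = x p
    rw [hφ p]
  have h2 : BoundedLatticeHom.id B = ψ := hψ _ fun p => rfl
  rw [eq_top_iff]
  intro b _
  have h3 : C.subtype.comp φ = BoundedLatticeHom.id B := h1.trans h2.symm
  have h4 : ((φ b : C) : B) = b := DFunLike.congr_fun h3 b
  rw [← h4]
  exact (φ b).2

theorem IsPosetAlgebra.exists_ev {P : Type u} [PartialOrder P] {B : Type u} [BooleanAlgebra B]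
    {x : P → B} (h : IsPosetAlgebra x) : ∃ ev : Set P → B → Prop, Ev (fun p q => q ≤ p) x ev := by
  classical
  have hmono : ∀ F : Set P, Low (fun p q => q ≤ p) F →
      Monotone (fun p : P => ({_y | p ∈ F} : Set PUnit.{u + 1})) := by
    intro F hF p q hpq y hy
    exact hF (x := q) (y := p) hpq hy
  have hex : ∀ F : Set P, ∃ φ : BoundedLatticeHom B (Set PUnit.{u + 1}),
      Low (fun p q => q ≤ p) F → ∀ p, φ (x p) = {_y | p ∈ F} := by
    intro F
    by_cases hF : Low (fun p q => q ≤ p) F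
    · obtain ⟨φ, hφ, -⟩ := h.lift _ _ (hmono F hF)
      exact ⟨φ, fun _ => hφ⟩
    · have h0 : Low (fun p q : P => q ≤ p) (∅ : Set P) := fun p q _ h => h
      obtain ⟨φ, hφ, -⟩ := h.lift _ _ (hmono ∅ h0)
      exact ⟨φ, fun h' => absurd h' hF⟩
  choose φ hφ using hex
  refine ⟨fun F b => PUnit.unit ∈ φ F b, ?_⟩
  constructor
  · intro F hF
    rw [map_bot]
    exact fun h => h
  · intro F hF a b
    rw [map_sup]
    exact Iff.rfl
  · intro F hF a b
    rw [map_inf]
    exact Iff.rfl
  · intro F hF a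
    rw [map_compl']
    exact Iff.rfl
  · intro F hF p
    rw [hφ F hF p]
    exact Iff.rfl
  · intro J hJ w hw
    obtain ⟨ψ, h1, h2⟩ := exists_hom J hJ w hw
    have hF : Low (fun p q => q ≤ p) {p | ψ (x p)} := by
      intro p q hpq hq
      have h3 : ψ (x q) ≤ ψ (x p) := OrderHomClass.mono ψ (h.mono hpq)
      exact h3 hq
    refine ⟨{p | ψ (x p)}, hF, ?_⟩
    have heq : (propHom.{u}).comp ψ = φ {p | ψ (x p)} := by
      obtain ⟨θ, -, hθ⟩ := h.lift _ _ (hmono _ hF)
      rw [hθ (φ {p | ψ (x p)}) (hφ _ hF), hθ ((propHom.{u}).comp ψ) fun p => rfl]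
    have hev : ∀ b, PUnit.unit ∈ φ {p | ψ (x p)} b ↔ ψ b := by
      intro b
      rw [← heq]
      exact Iff.rfl
    exact ⟨(hev w).2 h1, fun j hj h3 => h2 j hj ((hev j).1 h3)⟩
  · exact h.closure_eq

/-! ## Existence of poset algebras -/

theorem exists_posetAlgebra (P : Type u) [PartialOrder P] :
    ∃ (B : Type u) (_ : BooleanAlgebra B) (x : P → B), IsPosetAlgebra x := by
  classical
  let N : P → Set (UpperSet P) := fun p => {F | p ∈ F}
  let C : BooleanSubalgebra (Set (UpperSet P)) := BooleanSubalgebra.closure (Set.range N)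
  have hN : ∀ p, N p ∈ C := fun p => BooleanSubalgebra.subset_closure ⟨p, rfl⟩
  refine ⟨C, inferInstance, fun p => ⟨N p, hN p⟩, ?_, ?_⟩
  · intro p q hpq
    change N p ≤ N q
    intro F hF
    exact F.upper hpq hF
  · intro A _ f hf
    -- the dual space of `A`
    let X : Type u := BoundedLatticeHom A Prop
    let e : BoundedLatticeHom A (Set X) :=
      { toFun := fun a => {v | v a}
        map_sup' := fun a b => by ext v; change v (a ⊔ b) ↔ v a ∨ v b; rw [map_sup]; exact Iff.rfl
        map_inf' := fun a b => by ext v; change v (a ⊓ b) ↔ v a ∧ v b; rw [map_inf]; exact Iff.rfl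
        map_top' := by ext v; change v ⊤ ↔ True; rw [map_top]; exact Iff.rfl
        map_bot' := by ext v; change v ⊥ ↔ False; rw [map_bot]; exact Iff.rfl }
    have he : Function.Injective e := by
      have key : ∀ a b : A, e a = e b → a ≤ b := by
        intro a b hab
        by_contra hcon
        have h1 : a \ b ∉ ({⊥} : Set A) := by simpa [sdiff_eq_bot_iff] using hcon
        obtain ⟨v, h2, -⟩ := exists_hom _ isId_bot _ h1
        rw [_root_.sdiff_eq, map_inf, map_compl'] at h2
        have h3 : v ∈ e a := h2.1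
        rw [hab] at h3
        exact h2.2 h3
      intro a b hab
      exact le_antisymm (key a b hab) (key b a hab.symm)
    let g : X → UpperSet P := fun v => ⟨{p | v (f p)}, fun p q hpq hp => by
      have h3 : v (f p) ≤ v (f q) := OrderHomClass.mono v (hf hpq)
      exact h3 hp⟩
    let G : BoundedLatticeHom (Set (UpperSet P)) (Set X) :=
      { toFun := fun S => g ⁻¹' S
        map_sup' := fun _ _ => rfl
        map_inf' := fun _ _ => rfl
        map_top' := rfl
        map_bot' := rfl }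
    have hG : C ≤ BooleanSubalgebra.comap G (BooleanSubalgebra.map e ⊤) := by
      rw [BooleanSubalgebra.closure_le]
      rintro _ ⟨p, rfl⟩
      exact ⟨f p, trivial, rfl⟩
    have hex : ∀ c : C, ∃ a : A, e a = G c := by
      intro c
      obtain ⟨a, -, ha⟩ := hG c.2
      exact ⟨a, ha⟩
    choose φ hφ using hex
    refine ⟨{ toFun := φ
              map_sup' := fun c d => he (by
                rw [map_sup, hφ, hφ, hφ]; rfl)
              map_inf' := fun c d => he (by
                rw [map_inf, hφ, hφ, hφ]; rfl)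
              map_top' := he (by rw [map_top, hφ]; rfl)
              map_bot' := he (by rw [map_bot, hφ]; rfl) }, ?_, ?_⟩
    · intro p
      exact he (by
        change e (φ _) = e (f p)
        rw [hφ]; rfl)
    · intro ψ hψ
      ext ⟨c, hc⟩
      change ψ ⟨c, hc⟩ = φ ⟨c, hc⟩
      have key : ∀ θ θ' : BoundedLatticeHom C A, (∀ p, θ ⟨N p, hN p⟩ = θ' ⟨N p, hN p⟩) →
          ∀ c (hc : c ∈ C), θ ⟨c, hc⟩ = θ' ⟨c, hc⟩ := by
        intro θ θ' hθ c hc
        induction hc using BooleanSubalgebra.closure_bot_sup_induction with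
        | mem c hc =>
          obtain ⟨p, rfl⟩ := hc
          exact hθ p
        | bot =>
          have h1 : θ (⊥ : C) = θ' (⊥ : C) := by rw [map_bot, map_bot]
          exact h1
        | sup c hc d hd ih1 ih2 =>
          have h1 : θ ((⟨c, hc⟩ : C) ⊔ ⟨d, hd⟩) = θ' ((⟨c, hc⟩ : C) ⊔ ⟨d, hd⟩) := by
            rw [map_sup, map_sup, ih1, ih2]
          exact h1
        | compl c hc ih =>
          have h1 : θ ((⟨c, hc⟩ : C)ᶜ) = θ' ((⟨c, hc⟩ : C)ᶜ) := by
            rw [map_compl', map_compl', ih]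
          exact h1
      let Φ : BoundedLatticeHom C A :=
        { toFun := φ
          map_sup' := fun c d => he (by
            rw [map_sup, hφ, hφ, hφ]; rfl)
          map_inf' := fun c d => he (by
            rw [map_inf, hφ, hφ, hφ]; rfl)
          map_top' := he (by rw [map_top, hφ]; rfl)
          map_bot' := he (by rw [map_bot, hφ]; rfl) }
      refine key ψ Φ (fun p => ?_) c hc
      refine (hψ p).trans ?_
      exact he (by
        change e (f p) = e (φ _)
        rw [hφ]; rfl)

/-! ## The main theorem -/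

/-- Every superatomic poset algebra is canonically well-generated.  (For every partial order `P`
the poset algebra exists, and every Boolean algebra `B` with the universal property of `F(P)` is
canonically well-generated as soon as it is superatomic.) -/
theorem result (P : Type u) [PartialOrder P] :
    (∃ (B : Type u) (_ : BooleanAlgebra B) (x : P → B), IsPosetAlgebra x) ∧
    ∀ (B : Type u) [BooleanAlgebra B] (x : P → B), IsPosetAlgebra x → Superatomic B →
      CanonicallyWellGenerated B := by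
  refine ⟨exists_posetAlgebra P, ?_⟩
  intro B _ x hx hsa
  obtain ⟨ev, hev⟩ := hx.exists_ev
  exact hev.cwg hsa (fun p => le_refl p) (fun p q r h1 h2 => le_trans h2 h1)

end Pool.Agent.Results.MP_e71ceb_lc.SuperatomicImpliesCWG
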